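import Mathlib

set_option linter.unusedSectionVars false

open Filter Topology Set
open scoped InnerProductSpace

namespace Pool.Agent.Results.MP_f0e28a_gt.AllSignatures

/-- `F` is a face of the convex set `C`. -/
def IsFace {n : ℕ} (C F : Set (EuclideanSpace ℝ (Fin n))) : Prop :=
  F ⊆ C ∧ Convex ℝ F ∧ ∀ x ∈ C, ∀ y ∈ C, (openSegment ℝ x y ∩ F).Nonempty → x ∈ F ∧ y ∈ F

/-- The dimension of a (nonempty convex) set: the dimension of its affine hull. -/
noncomputable def dim {n : ℕ} (F : Set (EuclideanSpace ℝ (Fin n))) : ℕ :=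
  Module.finrank ℝ (affineSpan ℝ F).direction

/-- The facial dimension signature. -/
def signature {n : ℕ} (C : Set (EuclideanSpace ℝ (Fin n))) : Set ℕ :=
  {d | ∃ F, IsFace C F ∧ F.Nonempty ∧ dim F = d}

/-- `F` is an exposed face of `C`: a closed half-space contains `C` and its boundary hyperplane
meets `C` in exactly `F`. -/
def IsExposedFace {n : ℕ} (C F : Set (EuclideanSpace ℝ (Fin n))) : Prop :=
  ∃ (a : EuclideanSpace ℝ (Fin n)) (β : ℝ), a ≠ 0 ∧ (∀ x ∈ C, ⟪a, x⟫_ℝ ≤ β) ∧
    F = {x | x ∈ C ∧ ⟪a, x⟫_ℝ = β}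

/-- Every nonempty proper face is exposed. -/
def FaciallyExposed {n : ℕ} (C : Set (EuclideanSpace ℝ (Fin n))) : Prop :=
  ∀ F, IsFace C F → F.Nonempty → F ≠ C → IsExposedFace C F

/-- `S` is a spectrahedron. -/
def IsSpectrahedron {n : ℕ} (S : Set (EuclideanSpace ℝ (Fin n))) : Prop :=
  ∃ (m : ℕ) (A₀ : Matrix (Fin m) (Fin m) ℝ) (A : Fin n → Matrix (Fin m) (Fin m) ℝ),
    A₀.IsSymm ∧ (∀ k, (A k).IsSymm) ∧ S = {x | (A₀ + ∑ k, x k • A k).PosSemidef}

/-- The polar of `C`. -/
def polar {n : ℕ} (C : Set (EuclideanSpace ℝ (Fin n))) : Set (EuclideanSpace ℝ (Fin n)) :=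
  {y | ∀ x ∈ C, ⟪x, y⟫_ℝ ≤ 1}

/-! ### Sets given by finitely many convex quadratic inequalities -/

section Quadratic

variable {n : ℕ} {ι : Type} [Fintype ι]
variable (w l : ι → Fin n → ℝ) (b : ι → ℝ) (t : Fin n → ℝ)


/-- The quadratic functions. -/
def Q (i : ι) (x : EuclideanSpace ℝ (Fin n)) : ℝ :=
  ∑ k, (w i k * (x k + t k) ^ 2 + l i k * (x k + t k))

/-- The quadratic parts. -/
def R (i : ι) (v : EuclideanSpace ℝ (Fin n)) : ℝ := ∑ k, w i k * v k ^ 2

/-- The set of solutions of the inequalities `Q i x ≤ b i`. -/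
def body : Set (EuclideanSpace ℝ (Fin n)) := {x | ∀ i, Q w l t i x ≤ b i}

lemma Q_comb (i : ι) (x y : EuclideanSpace ℝ (Fin n)) (s : ℝ) :
    Q w l t i ((1 - s) • x + s • y)
      = (1 - s) * Q w l t i x + s * Q w l t i y - s * (1 - s) * R w i (x - y) := by
  simp only [Q, R, Finset.mul_sum, ← Finset.sum_add_distrib, ← Finset.sum_sub_distrib]
  refine Finset.sum_congr rfl fun k _ => ?_
  simp only [PiLp.add_apply, PiLp.smul_apply, PiLp.sub_apply, smul_eq_mul]
  ring

variable (hw : ∀ i k, 0 ≤ w i k)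
include hw

lemma R_nonneg (i : ι) (v : EuclideanSpace ℝ (Fin n)) : 0 ≤ R w i v :=
  Finset.sum_nonneg fun k _ => mul_nonneg (hw i k) (sq_nonneg _)

lemma R_eq_zero_iff (i : ι) (v : EuclideanSpace ℝ (Fin n)) : R w i v = 0 ↔ ∀ k, w i k * v k = 0 := by
  rw [R, Finset.sum_eq_zero_iff_of_nonneg fun k _ => mul_nonneg (hw i k) (sq_nonneg _)]
  constructor
  · intro h k
    have := h k (Finset.mem_univ k)
    rcases mul_eq_zero.1 this with h | h
    · rw [h, zero_mul]
    · rw [pow_eq_zero_iff two_ne_zero] at h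
      rw [h, mul_zero]
  · intro h k _
    have := h k
    rcases mul_eq_zero.1 this with h | h
    · rw [h, zero_mul]
    · rw [h]
      simp

omit hw in
/-- The active constraints at `x`. -/
def act (x : EuclideanSpace ℝ (Fin n)) : Set ι := {i | Q w l t i x = b i}

omit hw in
/-- The face of `x`. -/
def faceAt (x : EuclideanSpace ℝ (Fin n)) : Set (EuclideanSpace ℝ (Fin n)) :=
  {y | y ∈ body w l b t ∧ ∀ i ∈ act w l b t x, Q w l t i y = b i ∧ ∀ k, w i k * (x k - y k) = 0}

omit hw in
lemma comb_eq (x y : EuclideanSpace ℝ (Fin n)) (s : ℝ) : x + s • (y - x) = (1 - s) • x + s • y := by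
  rw [smul_sub, sub_smul, one_smul]
  abel

lemma body_convex : Convex ℝ (body w l b t) := by
  intro x hx y hy a c ha hc hac i
  have h1 := Q_comb w l t i x y c
  have h2 : a = 1 - c := by linarith
  rw [h2, h1]
  have h3 := hx i
  have h4 := hy i
  have h5 := R_nonneg w hw i (x - y)
  have h6 : 0 ≤ c * (1 - c) := mul_nonneg hc (by linarith)
  nlinarith [mul_nonneg h6 h5, mul_le_mul_of_nonneg_left h3 (show 0 ≤ 1 - c by linarith),
    mul_le_mul_of_nonneg_left h4 hc]

/-- If an interior point of a segment is active for `i` then so is the whole segment. -/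
lemma act_of_comb {i : ι} {x y : EuclideanSpace ℝ (Fin n)} (hx : x ∈ body w l b t) (hy : y ∈ body w l b t) {s : ℝ}
    (h0 : 0 < s) (h1 : s < 1) (h : Q w l t i ((1 - s) • x + s • y) = b i) :
    Q w l t i x = b i ∧ Q w l t i y = b i ∧ ∀ k, w i k * (x k - y k) = 0 := by
  rw [Q_comb] at h
  have h3 := hx i
  have h4 := hy i
  have h5 := R_nonneg w hw i (x - y)
  have h6 : 0 < s * (1 - s) := mul_pos h0 (by linarith)
  have h7 : R w i (x - y) = 0 := by
    by_contra hne
    have h8 : 0 < R w i (x - y) := lt_of_le_of_ne h5 (Ne.symm hne)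
    nlinarith [mul_pos h6 h8, mul_le_mul_of_nonneg_left h3 (show 0 ≤ 1 - s by linarith),
      mul_le_mul_of_nonneg_left h4 h0.le]
  rw [h7, mul_zero, sub_zero] at h
  refine ⟨?_, ?_, ?_⟩
  · by_contra hne
    have h8 : Q w l t i x < b i := lt_of_le_of_ne h3 hne
    nlinarith [mul_lt_mul_of_pos_left h8 (show 0 < 1 - s by linarith),
      mul_le_mul_of_nonneg_left h4 h0.le]
  · by_contra hne
    have h8 : Q w l t i y < b i := lt_of_le_of_ne h4 hne
    nlinarith [mul_lt_mul_of_pos_left h8 h0,
      mul_le_mul_of_nonneg_left h3 (show 0 ≤ 1 - s by linarith)]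
  · intro k
    have := (R_eq_zero_iff w hw i (x - y)).1 h7 k
    simpa using this

omit hw in
lemma mem_faceAt_self {x : EuclideanSpace ℝ (Fin n)} (hx : x ∈ body w l b t) : x ∈ faceAt w l b t x :=
  ⟨hx, fun i hi => ⟨hi, fun k => by simp⟩⟩

lemma Q_comb_of_zero {i : ι} {x y : EuclideanSpace ℝ (Fin n)} (h : ∀ k, w i k * (x k - y k) = 0) (s : ℝ) :
    Q w l t i ((1 - s) • x + s • y) = (1 - s) * Q w l t i x + s * Q w l t i y := by
  rw [Q_comb, (R_eq_zero_iff w hw i (x - y)).2 (by simpa using h), mul_zero, sub_zero]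

lemma isFace_faceAt {x : EuclideanSpace ℝ (Fin n)} : IsFace (body w l b t) (faceAt w l b t x) := by
  refine ⟨fun y hy => hy.1, ?_, ?_⟩
  · intro y hy z hz a c ha hc hac
    refine ⟨body_convex w l b t hw hy.1 hz.1 ha hc hac, fun i hi => ?_⟩
    obtain ⟨h1, h2⟩ := hy.2 i hi
    obtain ⟨h3, h4⟩ := hz.2 i hi
    have h5 : ∀ k, w i k * (y k - z k) = 0 := fun k => by linear_combination h4 k - h2 k
    have h6 : a = 1 - c := by linarith
    constructor
    · rw [h6, Q_comb_of_zero w l t hw h5, h1, h3]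
      ring
    · intro k
      simp only [PiLp.add_apply, PiLp.smul_apply, smul_eq_mul]
      rw [h6]
      linear_combination (1 - c) * h2 k + c * h4 k
  · rintro y hy z hz ⟨u, hu, hu'⟩
    obtain ⟨a, c, ha, hc, hac, rfl⟩ := hu
    have h6 : a = 1 - c := by linarith
    subst h6
    have key : ∀ i ∈ act w l b t x, (Q w l t i y = b i ∧ ∀ k, w i k * (x k - y k) = 0) ∧
        (Q w l t i z = b i ∧ ∀ k, w i k * (x k - z k) = 0) := by
      intro i hi
      obtain ⟨h1, h2⟩ := hu'.2 i hi
      obtain ⟨h3, h4, h5⟩ := act_of_comb w l b t hw hy hz hc (by linarith) h1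
      simp only [PiLp.add_apply, PiLp.smul_apply, smul_eq_mul] at h2
      exact ⟨⟨h3, fun k => by linear_combination h2 k - c * h5 k⟩,
        ⟨h4, fun k => by linear_combination h2 k + (1 - c) * h5 k⟩⟩
    exact ⟨⟨hy, fun i hi => (key i hi).1⟩, ⟨hz, fun i hi => (key i hi).2⟩⟩

omit hw in
lemma continuous_Q (i : ι) : Continuous (Q w l t i) := by
  unfold Q
  fun_prop

lemma faceAt_subset {F : Set (EuclideanSpace ℝ (Fin n))} (hF : IsFace (body w l b t) F) {x : EuclideanSpace ℝ (Fin n)} (hx : x ∈ F) :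
    faceAt w l b t x ⊆ F := by
  intro y hy
  have hxC := hF.1 hx
  -- go beyond `x`
  have hev : ∀ᶠ δ : ℝ in 𝓝[>] 0, (1 + δ) • x - δ • y ∈ body w l b t := by
    have hcont : Continuous fun δ : ℝ => (1 + δ) • x - δ • y := by fun_prop
    have h1 : ∀ i, ∀ᶠ δ : ℝ in 𝓝[>] 0, Q w l t i ((1 + δ) • x - δ • y) ≤ b i := by
      intro i
      by_cases hi : i ∈ act w l b t x
      · obtain ⟨h2, h3⟩ := hy.2 i hi
        refine Eventually.of_forall fun δ => ?_
        have h4 : (1 + δ) • x - δ • y = (1 - (-δ)) • x + (-δ) • y := by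
          rw [sub_neg_eq_add, neg_smul, sub_eq_add_neg]
        rw [h4, Q_comb_of_zero w l t hw h3, h2, show Q w l t i x = b i from hi]
        linarith
      · have h5 : Q w l t i x < b i := lt_of_le_of_ne (hxC i) hi
        have h6 : ContinuousAt (fun δ : ℝ => Q w l t i ((1 + δ) • x - δ • y)) 0 :=
          ((continuous_Q w l t i).comp hcont).continuousAt
        have h7 : (fun δ : ℝ => Q w l t i ((1 + δ) • x - δ • y)) 0 < b i := by
          simpa using h5
        have h8 := h6.eventually (gt_mem_nhds h7)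
        filter_upwards [nhdsWithin_le_nhds h8] with δ hδ
        exact hδ.le
    filter_upwards [eventually_all.2 h1] with δ hδ
    exact hδ
  obtain ⟨δ, hδ, hδ0⟩ := (hev.and self_mem_nhdsWithin).exists
  have hδ0' : (0 : ℝ) < δ := hδ0
  refine (hF.2.2 y hy.1 _ hδ ⟨x, ?_, hx⟩).1
  refine ⟨δ / (1 + δ), 1 / (1 + δ), by positivity, by positivity, by field_simp; ring, ?_⟩
  ext k
  simp only [PiLp.add_apply, PiLp.smul_apply, PiLp.sub_apply, smul_eq_mul]
  field_simp
  ring

/-- Every nonempty face is the face of one of its points. -/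
lemma exists_eq_faceAt {F : Set (EuclideanSpace ℝ (Fin n))} (hF : IsFace (body w l b t) F) (hne : F.Nonempty) :
    ∃ x ∈ F, F = faceAt w l b t x := by
  classical
  -- a point with the least number of active constraints
  obtain ⟨x, hx, hmin⟩ : ∃ x ∈ F, ∀ y ∈ F, (act w l b t x).ncard ≤ (act w l b t y).ncard := by
    have h1 : ((fun x => (act w l b t x).ncard) '' F).Nonempty := hne.image _
    obtain ⟨x, hx, hx'⟩ := Nat.sInf_mem h1
    refine ⟨x, hx, fun y hy => ?_⟩
    have h2 : sInf ((fun x => (act w l b t x).ncard) '' F) ≤ (act w l b t y).ncard :=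
      Nat.sInf_le ⟨y, hy, rfl⟩
    exact le_trans (le_of_eq hx') h2
  refine ⟨x, hx, Subset.antisymm ?_ (faceAt_subset w l b t hw hF hx)⟩
  intro y hy
  have hxC := hF.1 hx
  have hyC := hF.1 hy
  have hmid : (1 - (1 / 2 : ℝ)) • x + (1 / 2 : ℝ) • y ∈ F :=
    hF.2.1 hx hy (by norm_num) (by norm_num) (by norm_num)
  have hsub : act w l b t ((1 - (1 / 2 : ℝ)) • x + (1 / 2 : ℝ) • y) ⊆ act w l b t x := by
    intro i hi
    exact (act_of_comb w l b t hw hxC hyC (by norm_num) (by norm_num) hi).1
  have heq := Set.eq_of_subset_of_ncard_le hsub (hmin _ hmid) (Set.toFinite _)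
  refine ⟨hyC, fun i hi => ?_⟩
  rw [← heq] at hi
  exact (act_of_comb w l b t hw hxC hyC (by norm_num) (by norm_num) hi).2

/-- Such a set is facially exposed. -/
lemma faciallyExposed_body : FaciallyExposed (body w l b t) := by
  classical
  intro F hF hne hproper
  obtain ⟨x, hx, hFx⟩ := exists_eq_faceAt w l b t hw hF hne
  have hxC := hF.1 hx
  set A : Finset ι := Finset.univ.filter fun i => i ∈ act w l b t x with hA
  -- the linear functionals
  set a : EuclideanSpace ℝ (Fin n) := WithLp.toLp 2 fun k => ∑ i ∈ A, (l i k + 2 * w i k * (x k + t k)) with ha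
  have hinner : ∀ y : EuclideanSpace ℝ (Fin n), ⟪a, y⟫_ℝ - ⟪a, x⟫_ℝ = ∑ i ∈ A, (Q w l t i y - b i - R w i (x - y)) := by
    intro y
    have h1 : ∀ i ∈ A, Q w l t i y - b i - R w i (x - y)
        = ∑ k, (l i k + 2 * w i k * (x k + t k)) * (y k - x k) := by
      intro i hi
      have hi' : Q w l t i x = b i := (Finset.mem_filter.1 hi).2
      rw [← hi']
      simp only [Q, R, ← Finset.sum_sub_distrib]
      refine Finset.sum_congr rfl fun k _ => ?_
      simp only [PiLp.sub_apply]
      ring
    rw [Finset.sum_congr rfl h1, Finset.sum_comm, ← inner_sub_right, PiLp.inner_apply]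
    refine Finset.sum_congr rfl fun k _ => ?_
    rw [← Finset.sum_mul]
    simp [ha, mul_comm]
  have hle : ∀ y ∈ body w l b t, ∀ i ∈ A, Q w l t i y - b i - R w i (x - y) ≤ 0 := by
    intro y hy i _
    have h1 := hy i
    have h2 := R_nonneg w hw i (x - y)
    linarith
  have hiff : F = {y | y ∈ body w l b t ∧ ⟪a, y⟫_ℝ = ⟪a, x⟫_ℝ} := by
    rw [hFx]
    ext y
    constructor
    · intro hy
      refine ⟨hy.1, ?_⟩
      have h1 := hinner y
      rw [Finset.sum_eq_zero] at h1
      · linarith
      · intro i hi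
        obtain ⟨h2, h3⟩ := hy.2 i (Finset.mem_filter.1 hi).2
        rw [h2, (R_eq_zero_iff w hw i (x - y)).2 (by simpa using h3)]
        ring
    · rintro ⟨hy, hy'⟩
      refine ⟨hy, fun i hi => ?_⟩
      have h1 := hinner y
      rw [hy', sub_self] at h1
      have h2 := (Finset.sum_eq_zero_iff_of_nonpos (hle y hy)).1 h1.symm i
        (Finset.mem_filter.2 ⟨Finset.mem_univ i, hi⟩)
      have h3 := hy i
      have h4 := R_nonneg w hw i (x - y)
      refine ⟨by linarith, ?_⟩
      have h5 := (R_eq_zero_iff w hw i (x - y)).1 (by linarith)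
      simpa using h5
  refine ⟨a, ⟪a, x⟫_ℝ, ?_, ?_, hiff⟩
  · intro h0
    apply hproper
    rw [hiff, h0]
    ext y
    simp
  · intro y hy
    have h1 := hinner y
    have h2 := Finset.sum_nonpos (hle y hy)
    linarith

end Quadratic

/-! ### Such sets are spectrahedra -/

lemma isSpectrahedron_of_affine {n : ℕ} {κ : Type} [Fintype κ]
    (M : EuclideanSpace ℝ (Fin n) → Matrix κ κ ℝ) (hsymm : ∀ x, (M x).IsSymm)
    (haff : ∀ p q, ∃ (c₀ : ℝ) (c : Fin n → ℝ), ∀ x, M x p q = c₀ + ∑ k, x k * c k) :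
    IsSpectrahedron {x | (M x).PosSemidef} := by
  classical
  choose c₀ c hc using haff
  set e := Fintype.equivFin κ with he
  have h0 : ∀ p q, c₀ p q = M 0 p q := by
    intro p q
    rw [hc p q 0]
    simp
  have h1 : ∀ p q k, c p q k = M (EuclideanSpace.single k 1) p q - M 0 p q := by
    intro p q k
    rw [hc p q, hc p q]
    simp [Finset.sum_eq_single k]
  refine ⟨Fintype.card κ, Matrix.of fun p q => c₀ (e.symm p) (e.symm q),
    fun k => Matrix.of fun p q => c (e.symm p) (e.symm q) k, ?_, ?_, ?_⟩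
  · ext p q
    simp only [Matrix.transpose_apply, Matrix.of_apply, h0]
    exact (hsymm 0).apply _ _
  · intro k
    ext p q
    simp only [Matrix.transpose_apply, Matrix.of_apply, h1]
    rw [(hsymm 0).apply, (hsymm (EuclideanSpace.single k 1)).apply]
  · ext x
    have h2 : (Matrix.of fun p q => c₀ (e.symm p) (e.symm q))
        + ∑ k, x k • (Matrix.of fun p q => c (e.symm p) (e.symm q) k)
        = (M x).submatrix e.symm e.symm := by
      ext p q
      rw [Matrix.submatrix_apply, hc, Matrix.add_apply, Matrix.sum_apply]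
      simp
    rw [mem_ofPred_eq, mem_ofPred_eq, h2]
    exact (Matrix.posSemidef_submatrix_equiv e.symm).symm

section

variable {n : ℕ} {ι : Type} [Fintype ι]
variable (w l : ι → Fin n → ℝ) (b : ι → ℝ) (t : Fin n → ℝ)

/-- The blocks of the matrix pencil. -/
noncomputable def blk (x : EuclideanSpace ℝ (Fin n)) (i : ι) :
    Option (Fin n) → Option (Fin n) → ℝ
  | some k, some k' => if k = k' then 1 else 0
  | some k, none => √(w i k) * (x k + t k)
  | none, some k => √(w i k) * (x k + t k)
  | none, none => b i - ∑ k, l i k * (x k + t k)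

open Classical in
/-- The matrix pencil. -/
noncomputable def pencil (x : EuclideanSpace ℝ (Fin n)) :
    Matrix (ι × Option (Fin n)) (ι × Option (Fin n)) ℝ :=
  Matrix.of fun p q => if p.1 = q.1 then blk w l b t x p.1 p.2 q.2 else 0

lemma blk_symm (x : EuclideanSpace ℝ (Fin n)) (i : ι) (p q : Option (Fin n)) :
    blk w l b t x i p q = blk w l b t x i q p := by
  cases p <;> cases q <;> simp [blk, eq_comm]

lemma pencil_symm (x : EuclideanSpace ℝ (Fin n)) : (pencil w l b t x).IsSymm := by
  ext p q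
  simp only [Matrix.transpose_apply, pencil, Matrix.of_apply]
  by_cases h : p.1 = q.1
  · rw [if_pos h, if_pos h.symm, blk_symm, h]
  · rw [if_neg h, if_neg (Ne.symm h)]

lemma pencil_affine (p q : ι × Option (Fin n)) :
    ∃ (c₀ : ℝ) (c : Fin n → ℝ), ∀ x, pencil w l b t x p q = c₀ + ∑ k, x k * c k := by
  classical
  by_cases h : p.1 = q.1
  · obtain ⟨i, p⟩ := p
    obtain ⟨j, q⟩ := q
    simp only at h
    subst h
    simp only [pencil, Matrix.of_apply, if_true]
    rcases p with _ | k <;> rcases q with _ | k'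
    · refine ⟨b i - ∑ k, l i k * t k, fun k => -l i k, fun x => ?_⟩
      simp only [blk, mul_add, Finset.sum_add_distrib, mul_neg, Finset.sum_neg_distrib]
      rw [Finset.sum_congr rfl fun k _ => mul_comm (l i k) (x k)]
      ring
    · refine ⟨√(w i k') * t k', fun k => if k = k' then √(w i k') else 0, fun x => ?_⟩
      simp only [blk, mul_ite, mul_zero, Finset.sum_ite_eq', Finset.mem_univ, if_true]
      ring
    · refine ⟨√(w i k) * t k, fun k' => if k' = k then √(w i k) else 0, fun x => ?_⟩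
      simp only [blk, mul_ite, mul_zero, Finset.sum_ite_eq', Finset.mem_univ, if_true]
      ring
    · refine ⟨if k = k' then 1 else 0, 0, fun x => ?_⟩
      simp [blk]
  · refine ⟨0, 0, fun x => ?_⟩
    simp [pencil, h]

lemma blk_form (hw : ∀ i k, 0 ≤ w i k) (x : EuclideanSpace ℝ (Fin n)) (i : ι)
    (v : Option (Fin n) → ℝ) :
    ∑ p, v p * ∑ q, blk w l b t x i p q * v q
      = ∑ k, (v (some k) + √(w i k) * (x k + t k) * v none) ^ 2
        + (b i - Q w l t i x) * v none ^ 2 := by
  simp only [Fintype.sum_option, blk, ite_mul, one_mul, zero_mul, Finset.sum_ite_eq,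
    Finset.mem_univ, if_true]
  have h1 : ∀ k, w i k = √(w i k) ^ 2 := fun k => (Real.sq_sqrt (hw i k)).symm
  have hQ : Q w l t i x = ∑ k, (√(w i k) * (x k + t k)) ^ 2 + ∑ k, l i k * (x k + t k) := by
    rw [Q, Finset.sum_add_distrib]
    congr 1
    refine Finset.sum_congr rfl fun k _ => ?_
    rw [mul_pow, ← h1]
  rw [hQ]
  have e1 : ∑ k, v (some k) * (√(w i k) * (x k + t k) * v none + v (some k))
      = v none * ∑ k, √(w i k) * (x k + t k) * v (some k) + ∑ k, v (some k) ^ 2 := by
    rw [Finset.mul_sum, ← Finset.sum_add_distrib]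
    exact Finset.sum_congr rfl fun k _ => by ring
  have e2 : ∑ k, (v (some k) + √(w i k) * (x k + t k) * v none) ^ 2
      = ∑ k, v (some k) ^ 2 + 2 * v none * ∑ k, √(w i k) * (x k + t k) * v (some k)
        + v none ^ 2 * ∑ k, (√(w i k) * (x k + t k)) ^ 2 := by
    rw [Finset.mul_sum, Finset.mul_sum, ← Finset.sum_add_distrib, ← Finset.sum_add_distrib]
    exact Finset.sum_congr rfl fun k _ => by ring
  rw [e1, e2]
  ring

lemma pencil_form (hw : ∀ i k, 0 ≤ w i k) (x : EuclideanSpace ℝ (Fin n))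
    (v : ι × Option (Fin n) → ℝ) :
    star v ⬝ᵥ (Matrix.mulVec (pencil w l b t x) v)
      = ∑ i, (∑ k, (v (i, some k) + √(w i k) * (x k + t k) * v (i, none)) ^ 2
        + (b i - Q w l t i x) * v (i, none) ^ 2) := by
  classical
  have h1 : star v ⬝ᵥ (Matrix.mulVec (pencil w l b t x) v)
      = ∑ i, ∑ p, v (i, p) * ∑ q, blk w l b t x i p q * v (i, q) := by
    simp only [dotProduct, Matrix.mulVec, pencil, Matrix.of_apply, Fintype.sum_prod_type,
      star_trivial]
    refine Finset.sum_congr rfl fun i _ => Finset.sum_congr rfl fun p _ => ?_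
    congr 1
    rw [Finset.sum_eq_single i]
    · simp
    · intro j _ hj
      simp [Ne.symm hj]
    · simp
  rw [h1]
  refine Finset.sum_congr rfl fun i _ => ?_
  exact blk_form w l b t hw x i fun p => v (i, p)

lemma isSpectrahedron_body (hw : ∀ i k, 0 ≤ w i k) : IsSpectrahedron (body w l b t) := by
  classical
  have h : body w l b t = {x | (pencil w l b t x).PosSemidef} := by
    ext x
    rw [mem_ofPred_eq, Matrix.posSemidef_iff_dotProduct_mulVec]
    constructor
    · intro hx
      refine ⟨?_, fun v => ?_⟩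
      · rw [Matrix.IsHermitian, Matrix.conjTranspose_eq_transpose_of_trivial]
        exact pencil_symm w l b t x
      · rw [pencil_form w l b t hw]
        refine Finset.sum_nonneg fun i _ => add_nonneg (Finset.sum_nonneg fun k _ => sq_nonneg _) ?_
        exact mul_nonneg (sub_nonneg.2 (hx i)) (sq_nonneg _)
    · rintro ⟨_, hx⟩ i
      have h1 := hx fun p => if p.1 = i then (match p.2 with
        | some k => -(√(w i k) * (x k + t k))
        | none => 1) else 0
      rw [pencil_form w l b t hw, Finset.sum_eq_single i] at h1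
      · simpa using h1
      · intro j _ hj
        simp [hj]
      · simp
  rw [h]
  exact isSpectrahedron_of_affine _ (pencil_symm w l b t) (pencil_affine w l b t)

end

/-! ### Dimensions of the faces -/

lemma dim_eq_finrank {n : ℕ} {F : Set (EuclideanSpace ℝ (Fin n))} {x : EuclideanSpace ℝ (Fin n)}
    (hx : x ∈ F) (L : Submodule ℝ (EuclideanSpace ℝ (Fin n))) (h1 : ∀ y ∈ F, y - x ∈ L)
    (h2 : ∀ v ∈ L, ∃ δ : ℝ, δ ≠ 0 ∧ x + δ • v ∈ F) : dim F = Module.finrank ℝ L := by
  have h : (affineSpan ℝ F).direction = L := by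
    rw [direction_affineSpan, vectorSpan_eq_span_vsub_set_right ℝ hx]
    apply le_antisymm
    · rw [Submodule.span_le]
      rintro _ ⟨y, hy, rfl⟩
      exact h1 y hy
    · intro v hv
      obtain ⟨δ, hδ, hF⟩ := h2 v hv
      have h3 : δ • v ∈ Submodule.span ℝ ((fun y => y -ᵥ x) '' F) := by
        refine Submodule.subset_span ⟨x + δ • v, hF, ?_⟩
        simp
      have h4 := Submodule.smul_mem _ δ⁻¹ h3
      rwa [smul_smul, inv_mul_cancel₀ hδ, one_smul] at h4
  rw [dim, h]

section

variable {n : ℕ} {ι : Type} [Fintype ι]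
variable (w l : ι → Fin n → ℝ) (b : ι → ℝ) (t : Fin n → ℝ)

/-- The space of directions of the face of `x`. -/
def dirs (x : EuclideanSpace ℝ (Fin n)) : Submodule ℝ (EuclideanSpace ℝ (Fin n)) where
  carrier := {v | ∀ i ∈ act w l b t x, (∀ k, w i k * v k = 0) ∧ ∑ k, l i k * v k = 0}
  add_mem' := by
    intro u v hu hv i hi
    obtain ⟨h1, h2⟩ := hu i hi
    obtain ⟨h3, h4⟩ := hv i hi
    constructor
    · intro k
      rw [PiLp.add_apply, mul_add, h1 k, h3 k, add_zero]
    · simp only [PiLp.add_apply, mul_add, Finset.sum_add_distrib, h2, h4, add_zero]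
  zero_mem' := by
    intro i _
    simp
  smul_mem' := by
    intro r v hv i hi
    obtain ⟨h1, h2⟩ := hv i hi
    constructor
    · intro k
      rw [PiLp.smul_apply, smul_eq_mul, mul_left_comm, h1 k, mul_zero]
    · have : ∀ k, l i k * (r • v) k = r * (l i k * v k) := by
        intro k
        rw [PiLp.smul_apply, smul_eq_mul]
        ring
      simp only [this, ← Finset.mul_sum, h2, mul_zero]

lemma Q_add {i : ι} {x v : EuclideanSpace ℝ (Fin n)} (h : ∀ k, w i k * v k = 0) :
    Q w l t i (x + v) = Q w l t i x + ∑ k, l i k * v k := by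
  rw [Q, Q, ← Finset.sum_add_distrib]
  refine Finset.sum_congr rfl fun k _ => ?_
  rw [PiLp.add_apply]
  linear_combination (2 * (x k + t k) + v k) * h k

lemma dim_faceAt {x : EuclideanSpace ℝ (Fin n)} (hx : x ∈ body w l b t) :
    dim (faceAt w l b t x) = Module.finrank ℝ (dirs w l b t x) := by
  refine dim_eq_finrank (mem_faceAt_self w l b t hx) _ ?_ ?_
  · intro y hy i hi
    obtain ⟨h1, h2⟩ := hy.2 i hi
    have h3 : ∀ k, w i k * (y - x) k = 0 := by
      intro k
      rw [PiLp.sub_apply]
      linear_combination -h2 k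
    refine ⟨h3, ?_⟩
    have h4 := Q_add w l t h3 (x := x)
    rw [add_sub_cancel, h1, show Q w l t i x = b i from hi] at h4
    linarith
  · intro v hv
    have hcont : Continuous fun δ : ℝ => x + δ • v := by fun_prop
    have hact : ∀ δ : ℝ, ∀ i ∈ act w l b t x, Q w l t i (x + δ • v) = b i := by
      intro δ i hi
      obtain ⟨h1, h2⟩ := hv i hi
      have h3 : ∀ k, w i k * (δ • v) k = 0 := by
        intro k
        rw [PiLp.smul_apply, smul_eq_mul, mul_left_comm, h1 k, mul_zero]
      rw [Q_add w l t h3, show Q w l t i x = b i from hi]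
      have : ∀ k, l i k * (δ • v) k = δ * (l i k * v k) := by
        intro k
        rw [PiLp.smul_apply, smul_eq_mul]
        ring
      simp only [this, ← Finset.mul_sum, h2, mul_zero, add_zero]
    have hev : ∀ᶠ δ : ℝ in 𝓝[>] 0, ∀ i, Q w l t i (x + δ • v) ≤ b i := by
      rw [eventually_all]
      intro i
      by_cases hi : i ∈ act w l b t x
      · exact Eventually.of_forall fun δ => (hact δ i hi).le
      · have h5 : Q w l t i x < b i := lt_of_le_of_ne (hx i) hi
        have h6 : ContinuousAt (fun δ : ℝ => Q w l t i (x + δ • v)) 0 :=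
          ((continuous_Q w l t i).comp hcont).continuousAt
        have h7 : (fun δ : ℝ => Q w l t i (x + δ • v)) 0 < b i := by
          simpa using h5
        filter_upwards [nhdsWithin_le_nhds (h6.eventually (gt_mem_nhds h7))] with δ hδ
        exact hδ.le
    obtain ⟨δ, hδ, hδ0⟩ := (hev.and self_mem_nhdsWithin).exists
    refine ⟨δ, (ne_of_gt hδ0), hδ, fun i hi => ⟨hact δ i hi, fun k => ?_⟩⟩
    have := (hv i hi).1 k
    rw [PiLp.add_apply, PiLp.smul_apply, smul_eq_mul]
    linear_combination (-δ) * this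

end

/-! ### The polar -/

/-- The polar of our sets. -/
def cap (N k : ℕ) (hk : k < N) : Set (EuclideanSpace ℝ (Fin N)) :=
  {y | (∀ i : Fin N, (i : ℕ) < k → y i = 0) ∧ ‖y‖ ≤ 1 + 5 * y ⟨k, hk⟩}

lemma cap_faciallyExposed (N k : ℕ) (hk : k < N) : FaciallyExposed (cap N k hk) := by
  intro F hF hne hproper
  have hcont : Continuous fun y : EuclideanSpace ℝ (Fin N) => ‖y‖ - (1 + 5 * y ⟨k, hk⟩) := by
    fun_prop
  -- every point of `F` satisfies the equality
  have heq : ∀ y ∈ F, ‖y‖ = 1 + 5 * y ⟨k, hk⟩ := by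
    intro y hy
    by_contra hne'
    have hyC := hF.1 hy
    have hlt : ‖y‖ < 1 + 5 * y ⟨k, hk⟩ := lt_of_le_of_ne hyC.2 hne'
    apply hproper
    refine Subset.antisymm hF.1 fun z hz => ?_
    have h1 : ContinuousAt (fun δ : ℝ => ‖(1 + δ) • y - δ • z‖
        - (1 + 5 * ((1 + δ) • y - δ • z) ⟨k, hk⟩)) 0 :=
      (hcont.comp (by fun_prop : Continuous fun δ : ℝ => (1 + δ) • y - δ • z)).continuousAt
    have h2 : (fun δ : ℝ => ‖(1 + δ) • y - δ • z‖
        - (1 + 5 * ((1 + δ) • y - δ • z) ⟨k, hk⟩)) 0 < 0 := by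
      simp only [add_zero, one_smul, zero_smul, sub_zero]
      linarith
    have h3 : ∀ᶠ δ : ℝ in 𝓝[>] 0, _ := nhdsWithin_le_nhds (h1.eventually (gt_mem_nhds h2))
    obtain ⟨δ, hδ, hδ0⟩ := (h3.and self_mem_nhdsWithin).exists
    have hδ0' : (0 : ℝ) < δ := hδ0
    have hmem : (1 + δ) • y - δ • z ∈ cap N k hk := by
      refine ⟨fun i hi => ?_, by linarith⟩
      simp only [PiLp.sub_apply, PiLp.smul_apply, smul_eq_mul, hyC.1 i hi, hz.1 i hi]
      ring
    refine (hF.2.2 z hz _ hmem ⟨y, ?_, hy⟩).1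
    refine ⟨δ / (1 + δ), 1 / (1 + δ), by positivity, by positivity, by field_simp; ring, ?_⟩
    ext i
    simp only [PiLp.add_apply, PiLp.smul_apply, PiLp.sub_apply, smul_eq_mul]
    field_simp
    ring
  obtain ⟨y, hy⟩ := hne
  have hyC := hF.1 hy
  have hyeq := heq y hy
  have hy0 : y ≠ 0 := by
    rintro rfl
    simp at hyeq
  have hyn : 0 < ‖y‖ := norm_pos_iff.2 hy0
  -- `F` is a single point
  have huniq : ∀ z : EuclideanSpace ℝ (Fin N), ‖z‖ = 1 + 5 * z ⟨k, hk⟩ → SameRay ℝ y z → z = y := by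
    intro z hz hray
    obtain ⟨r, hr, hzr⟩ := hray.exists_nonneg_left hy0
    rw [← hzr] at hz ⊢
    rw [norm_smul, Real.norm_of_nonneg hr, PiLp.smul_apply, smul_eq_mul] at hz
    have : r = 1 := by
      have h5 : r * ‖y‖ = r + r * (5 * y ⟨k, hk⟩) := by rw [hyeq]; ring
      linarith
    rw [this, one_smul]
  have hsingle : F = {y} := by
    refine Subset.antisymm ?_ (singleton_subset_iff.2 hy)
    intro z hz
    have hzeq := heq z hz
    have hmid : (1 / 2 : ℝ) • y + (1 / 2 : ℝ) • z ∈ F :=
      hF.2.1 hy hz (by norm_num) (by norm_num) (by norm_num)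
    have hmeq := heq _ hmid
    have h6 : ‖y + z‖ = ‖y‖ + ‖z‖ := by
      have h7 : (1 / 2 : ℝ) • y + (1 / 2 : ℝ) • z = (1 / 2 : ℝ) • (y + z) := by
        rw [smul_add]
      rw [h7, norm_smul, PiLp.smul_apply, PiLp.add_apply, smul_eq_mul, Real.norm_of_nonneg
        (by norm_num)] at hmeq
      linarith
    have hray := sameRay_iff_norm_add.2 h6
    exact huniq z hzeq hray
  set a : EuclideanSpace ℝ (Fin N) :=
    ‖y‖⁻¹ • y - (5 : ℝ) • EuclideanSpace.single (⟨k, hk⟩ : Fin N) (1 : ℝ) with ha
  have hin : ∀ z : EuclideanSpace ℝ (Fin N), ⟪a, z⟫_ℝ = ‖y‖⁻¹ * ⟪y, z⟫_ℝ - 5 * z ⟨k, hk⟩ := by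
    intro z
    rw [ha, inner_sub_left, real_inner_smul_left, real_inner_smul_left,
      EuclideanSpace.inner_single_left]
    simp
  have hle : ∀ z : EuclideanSpace ℝ (Fin N), ‖y‖⁻¹ * ⟪y, z⟫_ℝ ≤ ‖z‖ := by
    intro z
    rw [inv_mul_le_iff₀ hyn]
    exact real_inner_le_norm y z
  refine ⟨a, 1, ?_, ?_, ?_⟩
  · intro h0
    have h8 := hin y
    rw [h0, inner_zero_left, real_inner_self_eq_norm_sq, sq, inv_mul_cancel_left₀ hyn.ne'] at h8
    linarith
  · intro z hz
    rw [hin]
    linarith [hle z, hz.2]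
  · rw [hsingle]
    refine Subset.antisymm ?_ ?_
    · rintro z rfl
      refine ⟨hyC, ?_⟩
      rw [hin, real_inner_self_eq_norm_sq, sq, inv_mul_cancel_left₀ hyn.ne']
      linarith
    · rintro z ⟨hz, hz1⟩
      rw [hin] at hz1
      have h1 := hle z
      have h2 := hz.2
      have h3 : ‖z‖ = 1 + 5 * z ⟨k, hk⟩ := by linarith
      have h4 : ‖y‖⁻¹ * ⟪y, z⟫_ℝ = ‖z‖ := by linarith
      have h5 : ⟪y, z⟫_ℝ = ‖y‖ * ‖z‖ := by
        rw [← h4, mul_inv_cancel_left₀ hyn.ne']
      have h6 := (inner_eq_norm_mul_iff_real.1 h5)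
      have h7 : SameRay ℝ y z := by
        rw [sameRay_iff_norm_smul_eq]
        exact h6.symm
      exact huniq z h3 h7

/-! ### The construction -/

section Construction

variable {N k : ℕ} {J : Type} [Fintype J] (f : J → ℕ) (c s : J → ℝ) (η : ℝ)

/-- The weights of the squares. -/
noncomputable def wt (N k : ℕ) : Option J → Fin N → ℝ
  | none, i => if k ≤ (i : ℕ) then 1 else 0
  | some j, i => if f j < (i : ℕ) then (1 - η) / 2 else 0

/-- The linear parts. -/
noncomputable def ln (N k : ℕ) : Option J → Fin N → ℝ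
  | none, _ => 0
  | some j, i => if (i : ℕ) = k then c j else if (i : ℕ) = k + 1 then s j else 0

/-- The right-hand sides. -/
noncomputable def rhs : Option J → ℝ
  | none => 1
  | some _ => (1 + η) / 2

/-- The translation. -/
noncomputable def tr (N k : ℕ) : Fin N → ℝ := fun i => if (i : ℕ) = k then 5 else 0


variable (hk : k < N) (hf1 : ∀ j, k < f j) (hf2 : ∀ j, f j < N) (hfinj : Function.Injective f)
  (hc : ∀ j, 4 / 5 ≤ c j) (hs0 : ∀ j, 0 ≤ s j) (hs1 : ∀ j, s j ≤ 3 / 5)
  (hcs : ∀ j, c j ^ 2 + s j ^ 2 = 1) (hη : 4 / 5 ≤ η) (hη1 : η < 1)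
  (hpair : ∀ i j, i ≠ j → (1 + c i * c j + s i * s j) / 2 < η ^ 2)

include hη1 in
lemma wt_nonneg (i : Option J) (m : Fin N) : 0 ≤ wt f η N k i m := by
  cases i with
  | none => simp only [wt]; split_ifs <;> norm_num
  | some j => simp only [wt]; split_ifs <;> linarith

lemma ln_sum (j : J) (hk1 : k + 1 < N) (z : Fin N → ℝ) :
    ∑ i, ln c s N k (some j) i * z i = c j * z ⟨k, hk⟩ + s j * z ⟨k + 1, hk1⟩ := by
  rw [Finset.sum_eq_add (⟨k, hk⟩ : Fin N) ⟨k + 1, hk1⟩ (by simp)]
  · simp [ln]
  · intro i _ hi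
    have h1 : (i : ℕ) ≠ k := fun h => hi.1 (Fin.ext h)
    have h2 : (i : ℕ) ≠ k + 1 := fun h => hi.2 (Fin.ext h)
    simp [ln, h1, h2]
  · simp
  · simp

lemma Q_none (x : EuclideanSpace ℝ (Fin N)) :
    (Q (wt f η N k) (ln c s N k) (tr N k)) none x = ∑ i : Fin N, if k ≤ (i : ℕ) then (x i + tr N k i) ^ 2 else 0 := by
  rw [Q]
  refine Finset.sum_congr rfl fun i _ => ?_
  simp only [wt, ln]
  split_ifs <;> ring

lemma Q_some (j : J) (hk1 : k + 1 < N) (x : EuclideanSpace ℝ (Fin N)) :
    (Q (wt f η N k) (ln c s N k) (tr N k)) (some j) x = c j * (x ⟨k, hk⟩ + tr N k ⟨k, hk⟩)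
      + s j * (x ⟨k + 1, hk1⟩ + tr N k ⟨k + 1, hk1⟩)
      + (1 - η) / 2 * ∑ i : Fin N, if f j < (i : ℕ) then (x i + tr N k i) ^ 2 else 0 := by
  rw [Q, Finset.sum_add_distrib, ln_sum c s hk j hk1 fun i => x i + tr N k i, Finset.mul_sum,
    add_comm]
  congr 1
  refine Finset.sum_congr rfl fun i _ => ?_
  simp only [wt]
  split_ifs <;> ring

include hf1 in
lemma tail_le (j : J) (x : EuclideanSpace ℝ (Fin N)) :
    (∑ i : Fin N, if f j < (i : ℕ) then (x i + tr N k i) ^ 2 else 0) ≤ (Q (wt f η N k) (ln c s N k) (tr N k)) none x := by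
  rw [Q_none]
  refine Finset.sum_le_sum fun i _ => ?_
  split_ifs with h1 h2
  · exact le_rfl
  · have := hf1 j
    omega
  · positivity
  · exact le_rfl

lemma two_le (hk1 : k + 1 < N) (x : EuclideanSpace ℝ (Fin N)) :
    (x ⟨k, hk⟩ + tr N k ⟨k, hk⟩) ^ 2
      + (x ⟨k + 1, hk1⟩ + tr N k ⟨k + 1, hk1⟩) ^ 2 ≤ (Q (wt f η N k) (ln c s N k) (tr N k)) none x := by
  rw [Q_none]
  have h := Finset.sum_le_sum_of_subset_of_nonneg
    (f := fun i : Fin N => if k ≤ (i : ℕ) then (x i + tr N k i) ^ 2 else 0)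
    (Finset.subset_univ {(⟨k, hk⟩ : Fin N), ⟨k + 1, hk1⟩}) (fun i _ _ => by positivity)
  rw [Finset.sum_pair (by simp)] at h
  simpa using h

include hf1 hf2 hη1 in
/-- Points of the ball which violate or saturate the `j`-th inequality. -/
lemma near {j : J} (x : EuclideanSpace ℝ (Fin N)) (h1 : (Q (wt f η N k) (ln c s N k) (tr N k)) none x ≤ 1)
    (h2 : (1 + η) / 2 ≤ (Q (wt f η N k) (ln c s N k) (tr N k)) (some j) x) (hk1 : k + 1 < N) :
    η ≤ c j * (x ⟨k, hk⟩ + tr N k ⟨k, hk⟩)
      + s j * (x ⟨k + 1, hk1⟩ + tr N k ⟨k + 1, hk1⟩) := by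
  have h3 := tail_le f c s η hf1 j x
  rw [Q_some f c s η hk j hk1] at h2
  have h4 : (1 - η) / 2 * (∑ i : Fin N, if f j < (i : ℕ) then (x i + tr N k i) ^ 2 else 0)
      ≤ (1 - η) / 2 * 1 := mul_le_mul_of_nonneg_left (h3.trans h1) (by linarith)
  linarith

include hk hf1 hf2 hcs hη hη1 hpair in
lemma act_disjoint {i j : J} (hij : i ≠ j) (x : EuclideanSpace ℝ (Fin N)) (h1 : (Q (wt f η N k) (ln c s N k) (tr N k)) none x ≤ 1)
    (hi : (Q (wt f η N k) (ln c s N k) (tr N k)) (some i) x = (1 + η) / 2) (hj : (Q (wt f η N k) (ln c s N k) (tr N k)) (some j) x = (1 + η) / 2) : False := by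
  have hk1 : k + 1 < N := by
    have := hf1 i
    have := hf2 i
    omega
  have h2 := near f c s η hk hf1 hf2 hη1 x h1 hi.ge hk1
  have h3 := near f c s η hk hf1 hf2 hη1 x h1 hj.ge hk1
  have h4 := (two_le f c s η hk hk1 x).trans h1
  have h5 := hpair i j hij
  set z1 := x ⟨k, hk⟩ + tr N k ⟨k, hk⟩
  set z2 := x ⟨k + 1, hk1⟩ + tr N k ⟨k + 1, hk1⟩
  have h6 : 2 * η ≤ (c i + c j) * z1 + (s i + s j) * z2 := by linarith
  have h7 : ((c i + c j) * z1 + (s i + s j) * z2) ^ 2
      ≤ ((c i + c j) ^ 2 + (s i + s j) ^ 2) * (z1 ^ 2 + z2 ^ 2) := by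
    nlinarith [sq_nonneg ((c i + c j) * z2 - (s i + s j) * z1)]
  have h8 : (c i + c j) ^ 2 + (s i + s j) ^ 2 = 2 + 2 * (c i * c j + s i * s j) := by
    have := hcs i
    have := hcs j
    nlinarith
  have h9 : (2 * η) ^ 2 ≤ ((c i + c j) * z1 + (s i + s j) * z2) ^ 2 :=
    pow_le_pow_left₀ (by linarith) h6 2
  have h10 : 0 ≤ (c i + c j) ^ 2 + (s i + s j) ^ 2 := by positivity
  have h11 : ((c i + c j) ^ 2 + (s i + s j) ^ 2) * (z1 ^ 2 + z2 ^ 2)
      ≤ ((c i + c j) ^ 2 + (s i + s j) ^ 2) * 1 := mul_le_mul_of_nonneg_left h4 h10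
  nlinarith

end Construction

/-! ### The dimensions of the spaces of directions -/

lemma finrank_ker_of_surjective {N m : ℕ} {V : Type} [AddCommGroup V] [Module ℝ V]
    [FiniteDimensional ℝ V] (φ : EuclideanSpace ℝ (Fin N) →ₗ[ℝ] V) (hφ : Function.Surjective φ)
    (hV : Module.finrank ℝ V = m) {L : Submodule ℝ (EuclideanSpace ℝ (Fin N))}
    (hL : ∀ v, v ∈ L ↔ φ v = 0) : Module.finrank ℝ L = N - m := by
  have h1 : L = LinearMap.ker φ := by
    ext v
    rw [hL, LinearMap.mem_ker]
  have h2 := LinearMap.finrank_range_add_finrank_ker φ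
  rw [LinearMap.range_eq_top.2 hφ, finrank_top, hV, finrank_euclideanSpace_fin] at h2
  rw [h1]
  omega

lemma finrank_low {N k : ℕ} (hk : k < N) {L : Submodule ℝ (EuclideanSpace ℝ (Fin N))}
    (hL : ∀ v, v ∈ L ↔ ∀ i : Fin N, k ≤ (i : ℕ) → v i = 0) : Module.finrank ℝ L = k := by
  have h := finrank_ker_of_surjective (m := N - k)
    (V := (Finset.Ici (⟨k, hk⟩ : Fin N)) → ℝ)
    { toFun := fun v i => v i
      map_add' := fun u v => by ext i; simp
      map_smul' := fun r v => by ext i; simp } ?_ ?_ (L := L) ?_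
  · rw [h]
    omega
  · intro g
    refine ⟨WithLp.toLp 2 fun i => if h : i ∈ Finset.Ici (⟨k, hk⟩ : Fin N) then g ⟨i, h⟩ else 0, ?_⟩
    ext i
    have hi := i.2
    show (if h : (i : Fin N) ∈ Finset.Ici (⟨k, hk⟩ : Fin N) then g ⟨i, h⟩ else 0) = g i
    rw [dif_pos hi]
  · rw [Module.finrank_fintype_fun_eq_card, Fintype.card_coe, Fin.card_Ici]
  · intro v
    rw [hL]
    constructor
    · intro h
      ext i
      exact h i (Fin.le_def.1 (Finset.mem_Ici.1 i.2))
    · intro h i hi
      exact congrFun h ⟨i, by simpa [Fin.le_def] using hi⟩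

lemma finrank_mid {N k m : ℕ} (hk1 : k + 1 < N) (hkm : k < m) (hm : m < N) (a b : ℝ) (ha : a ≠ 0)
    {L : Submodule ℝ (EuclideanSpace ℝ (Fin N))}
    (hL : ∀ v, v ∈ L ↔ (∀ i : Fin N, m < (i : ℕ) → v i = 0) ∧
      a * v ⟨k, by omega⟩ + b * v ⟨k + 1, hk1⟩ = 0) : Module.finrank ℝ L = m := by
  have h := finrank_ker_of_surjective (m := N - 1 - m + 1)
    (V := ((Finset.Ioi (⟨m, hm⟩ : Fin N)) → ℝ) × ℝ)
    { toFun := fun v => (fun i => v i, a * v ⟨k, by omega⟩ + b * v ⟨k + 1, hk1⟩)
      map_add' := fun u v => by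
        ext i
        · simp
        · simp
          ring
      map_smul' := fun r v => by
        ext i
        · simp
        · simp
          ring } ?_ ?_ (L := L) ?_
  · rw [h]
    omega
  · rintro ⟨g, r⟩
    refine ⟨WithLp.toLp 2 fun i => if h : i ∈ Finset.Ioi (⟨m, hm⟩ : Fin N) then g ⟨i, h⟩ else
      if (i : ℕ) = k then r / a else 0, ?_⟩
    have e1 : ¬ (m < k) := by omega
    have e2 : ¬ (m < k + 1) := by omega
    ext i
    · have hi := i.2
      show (if h : (i : Fin N) ∈ Finset.Ioi (⟨m, hm⟩ : Fin N) then g ⟨i, h⟩ else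
        if ((i : Fin N) : ℕ) = k then r / a else 0) = g i
      rw [dif_pos hi]
    · simp [Fin.lt_def, e1, e2]
      field_simp
  · rw [Module.finrank_prod, Module.finrank_fintype_fun_eq_card, Fintype.card_coe, Fin.card_Ioi,
      Module.finrank_self]
  · intro v
    rw [hL]
    constructor
    · rintro ⟨h1, h2⟩
      ext i
      · exact h1 i (Fin.lt_def.1 (Finset.mem_Ioi.1 i.2))
      · exact h2
    · intro h
      have h1 := congrArg Prod.fst h
      have h2 := congrArg Prod.snd h
      refine ⟨fun i hi => ?_, h2⟩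
      exact congrFun h1 ⟨i, by simpa [Fin.lt_def] using hi⟩

section Construction

variable {N k : ℕ} {J : Type} [Fintype J] (f : J → ℕ) (c s : J → ℝ) (η : ℝ)


variable (hk : k < N) (hf1 : ∀ j, k < f j) (hf2 : ∀ j, f j < N) (hfinj : Function.Injective f)
  (hc : ∀ j, 4 / 5 ≤ c j) (hs0 : ∀ j, 0 ≤ s j) (hs1 : ∀ j, s j ≤ 3 / 5)
  (hcs : ∀ j, c j ^ 2 + s j ^ 2 = 1) (hη : 4 / 5 ≤ η) (hη1 : η < 1)
  (hpair : ∀ i j, i ≠ j → (1 + c i * c j + s i * s j) / 2 < η ^ 2)

include hk hf1 hf2 hη1 in
lemma dirs_none {x : EuclideanSpace ℝ (Fin N)} (h : none ∈ (act (wt f η N k) (ln c s N k) (rhs (J := J) η) (tr N k)) x) :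
    Module.finrank ℝ ((dirs (wt f η N k) (ln c s N k) (rhs (J := J) η) (tr N k)) x) = k := by
  refine finrank_low hk fun v => ?_
  constructor
  · intro hv i hi
    have := (hv none h).1 i
    simp only [wt, if_pos hi, one_mul] at this
    exact this
  · intro hv i hi
    cases i with
    | none =>
      refine ⟨fun m => ?_, by simp [ln]⟩
      simp only [wt]
      split_ifs with h1
      · rw [hv m h1, mul_zero]
      · rw [zero_mul]
    | some j =>
      have h1 := hf1 j
      have h2 := hf2 j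
      refine ⟨fun m => ?_, ?_⟩
      · simp only [wt]
        split_ifs with h3
        · rw [hv m (by omega), mul_zero]
        · rw [zero_mul]
      · rw [ln_sum c s hk j (by omega) v, hv ⟨k, hk⟩ le_rfl, hv ⟨k + 1, by omega⟩ (by simp)]
        ring

include hk hf1 hf2 hc hcs hη hη1 hpair in
lemma dirs_some {x : EuclideanSpace ℝ (Fin N)} {j : J} (hx : x ∈ (body (wt f η N k) (ln c s N k) (rhs (J := J) η) (tr N k))) (h0 : none ∉ (act (wt f η N k) (ln c s N k) (rhs (J := J) η) (tr N k)) x)
    (h : some j ∈ (act (wt f η N k) (ln c s N k) (rhs (J := J) η) (tr N k)) x) : Module.finrank ℝ ((dirs (wt f η N k) (ln c s N k) (rhs (J := J) η) (tr N k)) x) = f j := by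
  have h1 := hf1 j
  have h2 := hf2 j
  have huniq : ∀ i ∈ (act (wt f η N k) (ln c s N k) (rhs (J := J) η) (tr N k)) x, i = some j := by
    intro i hi
    cases i with
    | none => exact absurd hi h0
    | some i =>
      by_contra hne
      have hij : i ≠ j := fun h => hne (by rw [h])
      exact act_disjoint f c s η hk hf1 hf2 hcs hη hη1 hpair hij x (hx none) hi h
  refine finrank_mid (k := k) (by omega) h1 h2 (c j) (s j)
    (by have := hc j; intro h; linarith) fun v => ?_
  constructor
  · intro hv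
    obtain ⟨h3, h4⟩ := hv _ h
    rw [ln_sum c s hk j (by omega) v] at h4
    refine ⟨fun i hi => ?_, h4⟩
    have := h3 i
    simp only [wt, if_pos hi] at this
    rcases mul_eq_zero.1 this with h5 | h5
    · linarith
    · exact h5
  · rintro ⟨h3, h4⟩ i hi
    rw [huniq i hi]
    refine ⟨fun m => ?_, ?_⟩
    · simp only [wt]
      split_ifs with h5
      · rw [h3 m h5, mul_zero]
      · rw [zero_mul]
    · rw [ln_sum c s hk j (by omega) v]
      exact h4

lemma dirs_empty {x : EuclideanSpace ℝ (Fin N)} (h : (act (wt f η N k) (ln c s N k) (rhs (J := J) η) (tr N k)) x = ∅) :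
    Module.finrank ℝ ((dirs (wt f η N k) (ln c s N k) (rhs (J := J) η) (tr N k)) x) = N := by
  have : (dirs (wt f η N k) (ln c s N k) (rhs (J := J) η) (tr N k)) x = ⊤ := by
    rw [eq_top_iff]
    intro v _ i hi
    rw [h] at hi
    exact absurd hi (notMem_empty i)
  rw [this, finrank_top, finrank_euclideanSpace_fin]

include hk hf1 hf2 hc hcs hη hη1 hpair in
/-- The possible dimensions of faces. -/
lemma dim_cases {x : EuclideanSpace ℝ (Fin N)} (hx : x ∈ (body (wt f η N k) (ln c s N k) (rhs (J := J) η) (tr N k))) :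
    ((act (wt f η N k) (ln c s N k) (rhs (J := J) η) (tr N k)) x = ∅ ∧ dim ((faceAt (wt f η N k) (ln c s N k) (rhs (J := J) η) (tr N k)) x) = N) ∨ (none ∈ (act (wt f η N k) (ln c s N k) (rhs (J := J) η) (tr N k)) x ∧ dim ((faceAt (wt f η N k) (ln c s N k) (rhs (J := J) η) (tr N k)) x) = k) ∨
      (∃ j, some j ∈ (act (wt f η N k) (ln c s N k) (rhs (J := J) η) (tr N k)) x ∧ dim ((faceAt (wt f η N k) (ln c s N k) (rhs (J := J) η) (tr N k)) x) = f j) := by
  rw [dim_faceAt _ _ _ _ hx]
  rcases Set.eq_empty_or_nonempty ((act (wt f η N k) (ln c s N k) (rhs (J := J) η) (tr N k)) x) with h | ⟨i, hi⟩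
  · exact Or.inl ⟨h, dirs_empty f c s η h⟩
  · by_cases h0 : none ∈ (act (wt f η N k) (ln c s N k) (rhs (J := J) η) (tr N k)) x
    · exact Or.inr (Or.inl ⟨h0, dirs_none f c s η hk hf1 hf2 hη1 h0⟩)
    · cases i with
      | none => exact absurd hi h0
      | some j =>
        exact Or.inr (Or.inr ⟨j, hi, dirs_some f c s η hk hf1 hf2 hc hcs hη hη1 hpair hx h0 hi⟩)

/-- The points used: `α e_k + β e_{k+1}` before the translation. -/
noncomputable def pt (N k : ℕ) (α β : ℝ) : EuclideanSpace ℝ (Fin N) :=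
  WithLp.toLp 2 fun i => (if (i : ℕ) = k then α else if (i : ℕ) = k + 1 then β else 0) - tr N k i

lemma pt_add (α β : ℝ) (i : Fin N) : pt N k α β i + tr N k i
    = if (i : ℕ) = k then α else if (i : ℕ) = k + 1 then β else 0 := by
  simp [pt]

lemma Q_none_pt0 (α : ℝ) : (Q (wt f η N k) (ln c s N k) (tr N k)) none (pt N k α 0) = if k < N then α ^ 2 else 0 := by
  rw [Q_none]
  simp only [pt_add, ite_self]
  split_ifs with h
  · rw [Finset.sum_eq_single (⟨k, h⟩ : Fin N)]
    · simp
    · intro i _ hi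
      have : (i : ℕ) ≠ k := fun h => hi (Fin.ext h)
      simp [this]
    · simp
  · refine Finset.sum_eq_zero fun i _ => ?_
    have := i.2
    rw [if_neg (by omega)]

lemma Q_none_pt (hk1 : k + 1 < N) (α β : ℝ) : (Q (wt f η N k) (ln c s N k) (tr N k)) none (pt N k α β) = α ^ 2 + β ^ 2 := by
  rw [Q_none]
  simp only [pt_add]
  rw [Finset.sum_eq_add (⟨k, by omega⟩ : Fin N) ⟨k + 1, hk1⟩ (by simp)]
  · simp
  · intro i _ hi
    have h1 : (i : ℕ) ≠ k := fun h => hi.1 (Fin.ext h)
    have h2 : (i : ℕ) ≠ k + 1 := fun h => hi.2 (Fin.ext h)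
    simp [h1, h2]
  · simp
  · simp

include hk hf1 hf2 in
lemma Q_some_pt (j : J) (α β : ℝ) : (Q (wt f η N k) (ln c s N k) (tr N k)) (some j) (pt N k α β) = c j * α + s j * β := by
  have h1 := hf1 j
  have h2 := hf2 j
  have hk1 : k + 1 < N := by omega
  rw [Q_some f c s η hk j hk1]
  simp only [pt_add]
  have h3 : (∑ i : Fin N, if f j < (i : ℕ) then
      (if (i : ℕ) = k then α else if (i : ℕ) = k + 1 then β else 0) ^ 2 else 0) = 0 := by
    refine Finset.sum_eq_zero fun i _ => ?_
    split_ifs with h4 h5 h6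
    · omega
    · omega
    · norm_num
    · rfl
  rw [h3]
  simp

include hk hf1 hf2 hc hs0 hcs hη hη1 hpair in
/-- The signature of the body. -/
lemma signature_body : signature (body (wt f η N k) (ln c s N k) (rhs (J := J) η) (tr N k)) = insert N (insert k (range f)) := by
  have hw := wt_nonneg (N := N) (k := k) f η hη1
  ext d
  constructor
  · rintro ⟨F, hF, hne, rfl⟩
    obtain ⟨x, hx, hFx⟩ := exists_eq_faceAt _ _ _ _ hw hF hne
    rw [hFx]
    rcases dim_cases f c s η hk hf1 hf2 hc hcs hη hη1 hpair (hF.1 hx) with h | h | ⟨j, h⟩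
    · exact Or.inl h.2
    · exact Or.inr (Or.inl h.2)
    · exact Or.inr (Or.inr ⟨j, h.2.symm⟩)
  · intro hd
    -- it is enough to find a point
    suffices h : ∃ x ∈ (body (wt f η N k) (ln c s N k) (rhs (J := J) η) (tr N k)), dim ((faceAt (wt f η N k) (ln c s N k) (rhs (J := J) η) (tr N k)) x) = d by
      obtain ⟨x, hx, hd⟩ := h
      exact ⟨(faceAt (wt f η N k) (ln c s N k) (rhs (J := J) η) (tr N k)) x, isFace_faceAt _ _ _ _ hw, ⟨x, mem_faceAt_self _ _ _ _ hx⟩, hd⟩
    rcases hd with hd | hd | ⟨j, hd⟩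
    · rw [hd]
      have h1 : ∀ i, (Q (wt f η N k) (ln c s N k) (tr N k)) i (pt N k 0 0) < rhs (J := J) η i := by
        intro i
        cases i with
        | none =>
          rw [Q_none_pt0]
          simp [rhs]
        | some j =>
          rw [Q_some_pt f c s η hk hf1 hf2]
          simp only [rhs]
          linarith
      refine ⟨pt N k 0 0, fun i => (h1 i).le, ?_⟩
      rcases dim_cases f c s η hk hf1 hf2 hc hcs hη hη1 hpair
        (x := pt N k 0 0) (fun i => (h1 i).le) with h | h | ⟨j, h⟩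
      · exact h.2
      · exact absurd h.1 (h1 none).ne
      · exact absurd h.1 (h1 (some j)).ne
    · rw [hd]
      have h0 : (Q (wt f η N k) (ln c s N k) (tr N k)) none (pt N k (-1) 0) = 1 := by
        rw [Q_none_pt0, if_pos hk]
        norm_num
      have h1 : ∀ j, (Q (wt f η N k) (ln c s N k) (tr N k)) (some j) (pt N k (-1) 0) < (1 + η) / 2 := by
        intro j
        rw [Q_some_pt f c s η hk hf1 hf2]
        have := hc j
        linarith
      have hmem : pt N k (-1) 0 ∈ (body (wt f η N k) (ln c s N k) (rhs (J := J) η) (tr N k)) := by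
        intro i
        cases i with
        | none => exact h0.le
        | some j => exact (h1 j).le
      refine ⟨pt N k (-1) 0, hmem, ?_⟩
      rcases dim_cases f c s η hk hf1 hf2 hc hcs hη hη1 hpair hmem with h | h | ⟨j, h⟩
      · have : none ∈ (act (wt f η N k) (ln c s N k) (rhs (J := J) η) (tr N k)) (pt N k (-1) 0) := h0
        rw [h.1] at this
        exact absurd this (notMem_empty _)
      · exact h.2
      · exact absurd h.1 (h1 j).ne
    · rw [← hd]
      have g1 := hf1 j
      have g2 := hf2 j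
      have h0 : (Q (wt f η N k) (ln c s N k) (tr N k)) none (pt N k ((1 + η) / 2 * c j) ((1 + η) / 2 * s j)) < 1 := by
        rw [Q_none_pt f c s η (by omega)]
        have := hcs j
        have e : ((1 + η) / 2 * c j) ^ 2 + ((1 + η) / 2 * s j) ^ 2 = ((1 + η) / 2) ^ 2 := by
          linear_combination ((1 + η) / 2) ^ 2 * this
        rw [e]
        nlinarith
      have hj : (Q (wt f η N k) (ln c s N k) (tr N k)) (some j) (pt N k ((1 + η) / 2 * c j) ((1 + η) / 2 * s j)) = (1 + η) / 2 := by
        rw [Q_some_pt f c s η hk hf1 hf2]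
        linear_combination ((1 + η) / 2) * hcs j
      have hi : ∀ i, i ≠ j →
          (Q (wt f η N k) (ln c s N k) (tr N k)) (some i) (pt N k ((1 + η) / 2 * c j) ((1 + η) / 2 * s j)) < (1 + η) / 2 := by
        intro i hij
        rw [Q_some_pt f c s η hk hf1 hf2]
        have h3 := hpair i j hij
        have h4 : c i * c j + s i * s j < 1 := by nlinarith
        nlinarith
      have hmem : pt N k ((1 + η) / 2 * c j) ((1 + η) / 2 * s j) ∈ (body (wt f η N k) (ln c s N k) (rhs (J := J) η) (tr N k)) := by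
        intro i
        cases i with
        | none => exact h0.le
        | some i =>
          rcases eq_or_ne i j with rfl | hij
          · exact hj.le
          · exact (hi i hij).le
      refine ⟨_, hmem, ?_⟩
      rcases dim_cases f c s η hk hf1 hf2 hc hcs hη hη1 hpair hmem with h | h | ⟨i, h⟩
      · have : some j ∈ (act (wt f η N k) (ln c s N k) (rhs (J := J) η) (tr N k)) (pt N k ((1 + η) / 2 * c j) ((1 + η) / 2 * s j)) := hj
        rw [h.1] at this
        exact absurd this (notMem_empty _)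
      · exact absurd h.1 h0.ne
      · rcases eq_or_ne i j with rfl | hij
        · exact h.2
        · exact absurd h.1 (hi i hij).ne

include hk hf1 hf2 hc hs0 hs1 hcs hη hη1 in
/-- The polar of the body. -/
lemma polar_body : polar (body (wt f η N k) (ln c s N k) (rhs (J := J) η) (tr N k)) = cap N k hk := by
  have hw := wt_nonneg (N := N) (k := k) f η hη1
  ext y
  constructor
  · intro hy
    have hx0 : pt N k 0 0 ∈ (body (wt f η N k) (ln c s N k) (rhs (J := J) η) (tr N k)) := by
      intro i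
      cases i with
      | none =>
        rw [Q_none_pt0]
        simp [rhs]
      | some j =>
        rw [Q_some_pt f c s η hk hf1 hf2]
        simp only [rhs]
        linarith
    refine ⟨fun i hi => ?_, ?_⟩
    · -- the body is invariant under translations along `e_i`
      have hinv : ∀ r : ℝ, pt N k 0 0 + EuclideanSpace.single i r ∈ (body (wt f η N k) (ln c s N k) (rhs (J := J) η) (tr N k)) := by
        intro r m
        have hz : ∀ q, wt f η N k m q * (EuclideanSpace.single i r : EuclideanSpace ℝ (Fin N)) q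
            = 0 := by
          intro q
          rcases eq_or_ne q i with rfl | hq
          · cases m with
            | none => simp [wt, not_le.2 hi]
            | some j =>
              have := hf1 j
              simp [wt, show ¬ f j < (q : ℕ) by omega]
          · simp [hq]
        rw [Q_add _ _ _ hz]
        have h0 : ∑ q, ln c s N k m q * (EuclideanSpace.single i r : EuclideanSpace ℝ (Fin N)) q
            = 0 := by
          refine Finset.sum_eq_zero fun q _ => ?_
          rcases eq_or_ne q i with rfl | hq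
          · cases m with
            | none => simp [ln]
            | some j => simp [ln, show (q : ℕ) ≠ k by omega, show (q : ℕ) ≠ k + 1 by omega]
          · simp [hq]
        rw [h0, add_zero]
        exact hx0 m
      have h1 : ∀ r : ℝ, ⟪pt N k 0 0, y⟫_ℝ + r * y i ≤ 1 := by
        intro r
        have h2 := hy _ (hinv r)
        rw [inner_add_left, EuclideanSpace.inner_single_left] at h2
        simpa using h2
      by_contra hne
      have h3 := h1 ((2 - ⟪pt N k 0 0, y⟫_ℝ) / y i)
      rw [div_mul_cancel₀ _ hne] at h3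
      linarith
    · -- the norm bound
      rcases eq_or_ne y 0 with rfl | hy0
      · simp
      have hyn : 0 < ‖y‖ := norm_pos_iff.2 hy0
      set x : EuclideanSpace ℝ (Fin N) := WithLp.toLp 2 fun i => ‖y‖⁻¹ * y i - tr N k i with hx
      have hxt : ∀ i, x i + tr N k i = ‖y‖⁻¹ * y i := by
        intro i
        simp [hx]
      have hnorm : ∑ i, (‖y‖⁻¹ * y i) ^ 2 = 1 := by
        have h1 := EuclideanSpace.norm_sq_eq y
        have h2 : ∀ i, (‖y‖⁻¹ * y i) ^ 2 = (‖y‖⁻¹) ^ 2 * ‖y i‖ ^ 2 := by
          intro i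
          rw [mul_pow, Real.norm_eq_abs, sq_abs]
        simp only [h2, ← Finset.mul_sum]
        rw [← h1]
        field_simp
      have hQ0 : (Q (wt f η N k) (ln c s N k) (tr N k)) none x ≤ 1 := by
        rw [Q_none, ← hnorm]
        refine Finset.sum_le_sum fun i _ => ?_
        rw [hxt]
        split_ifs
        · exact le_rfl
        · positivity
      by_cases hxS : x ∈ (body (wt f η N k) (ln c s N k) (rhs (J := J) η) (tr N k))
      · have h1 := hy x hxS
        have h2 : ⟪x, y⟫_ℝ = ‖y‖ - 5 * y ⟨k, hk⟩ := by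
          have h3 : ⟪x, y⟫_ℝ = ∑ i, (‖y‖⁻¹ * y i * y i - tr N k i * y i) := by
            rw [PiLp.inner_apply]
            refine Finset.sum_congr rfl fun i _ => ?_
            simp [hx]
            ring
          rw [h3, Finset.sum_sub_distrib]
          congr 1
          · have h4 := EuclideanSpace.norm_sq_eq y
            have h5 : ∀ i, ‖y‖⁻¹ * y i * y i = ‖y‖⁻¹ * ‖y i‖ ^ 2 := by
              intro i
              rw [Real.norm_eq_abs, sq_abs]
              ring
            simp only [h5, ← Finset.mul_sum]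
            rw [← h4]
            field_simp
          · rw [Finset.sum_eq_single (⟨k, hk⟩ : Fin N)]
            · simp [tr]
            · intro i _ hi
              have : (i : ℕ) ≠ k := fun h => hi (Fin.ext h)
              simp [tr, this]
            · simp
        linarith
      · -- some other inequality is violated
        have h1 : ∃ j, (1 + η) / 2 < (Q (wt f η N k) (ln c s N k) (tr N k)) (some j) x := by
          by_contra hcon
          push Not at hcon
          apply hxS
          intro i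
          cases i with
          | none => exact hQ0
          | some j => exact hcon j
        obtain ⟨j, hj⟩ := h1
        have g1 := hf1 j
        have g2 := hf2 j
        have hk1 : k + 1 < N := by omega
        have h2 := near f c s η hk hf1 hf2 hη1 x hQ0 hj.le hk1
        have h3 := two_le f c s η hk hk1 x
        rw [hxt, hxt] at h2 h3
        set z1 := ‖y‖⁻¹ * y ⟨k, hk⟩ with hz1
        set z2 := ‖y‖⁻¹ * y ⟨k + 1, hk1⟩
        have h4 : z1 ^ 2 + z2 ^ 2 ≤ 1 := h3.trans hQ0
        have h5 : 1 / 5 ≤ z1 := by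
          by_contra hcon
          push Not at hcon
          have h6 : c j ≤ 1 := by nlinarith [hcs j, hc j, sq_nonneg (s j)]
          have h7 : z2 ≤ 1 := by nlinarith
          have h8 : s j * z2 ≤ 3 / 5 := by
            rcases le_total z2 0 with h | h
            · nlinarith [hs0 j]
            · nlinarith [hs0 j, hs1 j]
          have h9 : c j * z1 < 1 / 5 := by
            rcases le_total z1 0 with h | h
            · nlinarith [hc j]
            · nlinarith [hc j]
          linarith
        have h10 : z1 * ‖y‖ = y ⟨k, hk⟩ := by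
          rw [hz1]
          field_simp
        nlinarith
  · rintro ⟨hy1, hy2⟩ x hx
    have h1 : ⟪x, y⟫_ℝ = (∑ i, (x i + tr N k i) * y i) - 5 * y ⟨k, hk⟩ := by
      have h2 : ∑ i, tr N k i * y i = 5 * y ⟨k, hk⟩ := by
        rw [Finset.sum_eq_single (⟨k, hk⟩ : Fin N)]
        · simp [tr]
        · intro i _ hi
          have : (i : ℕ) ≠ k := fun h => hi (Fin.ext h)
          simp [tr, this]
        · simp
      rw [← h2, ← Finset.sum_sub_distrib, PiLp.inner_apply]
      refine Finset.sum_congr rfl fun i _ => ?_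
      simp
      ring
    set z : EuclideanSpace ℝ (Fin N) :=
      WithLp.toLp 2 fun i => if k ≤ (i : ℕ) then x i + tr N k i else 0 with hz
    have h3 : ∑ i, (x i + tr N k i) * y i = ⟪z, y⟫_ℝ := by
      rw [PiLp.inner_apply]
      refine Finset.sum_congr rfl fun i _ => ?_
      by_cases hi : k ≤ (i : ℕ)
      · simp [hz, hi, mul_comm]
      · simp [hz, hi, hy1 i (not_le.1 hi)]
    have h4 : ‖z‖ ≤ 1 := by
      have h5 : ‖z‖ ^ 2 ≤ 1 := by
        rw [EuclideanSpace.norm_sq_eq]
        have h6 := hx none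
        rw [Q_none] at h6
        refine le_trans (le_of_eq ?_) h6
        refine Finset.sum_congr rfl fun i _ => ?_
        by_cases hi : k ≤ (i : ℕ)
        · simp [hz, hi]
        · simp [hz, hi]
      nlinarith [norm_nonneg z]
    have h7 := real_inner_le_norm z y
    rw [h1, h3]
    nlinarith [norm_nonneg y]

end Construction

/-- The parameter `η`. -/
lemma exists_eta {J : Type} [Finite J] (c s : J → ℝ) (hcs : ∀ j, c j ^ 2 + s j ^ 2 = 1)
    (hinj : Function.Injective s) :
    ∃ η : ℝ, 4 / 5 ≤ η ∧ η < 1 ∧ ∀ i j, i ≠ j → (1 + c i * c j + s i * s j) / 2 < η ^ 2 := by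
  have h1 : ∀ i j, i ≠ j → (1 + c i * c j + s i * s j) / 2 < 1 := by
    intro i j hij
    have h2 : s i ≠ s j := fun h => hij (hinj h)
    have h3 : 0 < (s i - s j) ^ 2 := by
      have : s i - s j ≠ 0 := sub_ne_zero.2 h2
      positivity
    nlinarith [hcs i, hcs j, sq_nonneg (c i - c j)]
  have h2 : ∀ᶠ η : ℝ in 𝓝[<] 1, ∀ i j, i ≠ j → (1 + c i * c j + s i * s j) / 2 < η ^ 2 := by
    rw [eventually_all]
    intro i
    rw [eventually_all]
    intro j
    by_cases hij : i = j
    · exact Eventually.of_forall fun η h => absurd hij h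
    · have h3 : ContinuousAt (fun η : ℝ => η ^ 2) 1 := by fun_prop
      have h4 : (1 + c i * c j + s i * s j) / 2 < (fun η : ℝ => η ^ 2) 1 := by
        simpa using h1 i j hij
      filter_upwards [nhdsWithin_le_nhds (h3.eventually (lt_mem_nhds h4))] with η hη _
      exact hη
  have h3 : ∀ᶠ η : ℝ in 𝓝[<] 1, 4 / 5 ≤ η :=
    nhdsWithin_le_nhds (eventually_ge_nhds (by norm_num))
  obtain ⟨η, ⟨h4, h5⟩, h6⟩ := ((h2.and h3).and self_mem_nhdsWithin).exists
  exact ⟨η, h5, h6, h4⟩

/-- **Every nonempty finite set of nonnegative integers is the signature of a facially exposed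
spectrahedron with facially exposed polar.** -/
theorem result (I : Set ℕ) (hI : I.Finite) (hne : I.Nonempty) :
    ∃ (n : ℕ) (S : Set (EuclideanSpace ℝ (Fin n))), IsSpectrahedron S ∧ Convex ℝ S ∧
      signature S = I ∧ FaciallyExposed S ∧ FaciallyExposed (polar S) := by
  classical
  -- the least and the greatest element
  set k := sInf I with hk
  have hkI : k ∈ I := Nat.sInf_mem hne
  have hkmin : ∀ i ∈ I, k ≤ i := fun i hi => Nat.sInf_le hi
  obtain ⟨N, hNI, hNmax⟩ := hI.exists_maximal hne
  have hNmax' : ∀ i ∈ I, i ≤ N := by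
    intro i hi
    by_contra hcon
    have := hNmax hi (by omega)
    omega
  rcases eq_or_lt_of_le (hkmin N hNI) with hkN | hkN
  · -- a single dimension
    have hIk : I = {k} := by
      ext i
      constructor
      · intro hi
        have h1 := hkmin i hi
        have h2 := hNmax' i hi
        rw [mem_singleton_iff]
        omega
      · rintro rfl
        exact hkI
    have hbody : body (n := k) (fun (i : Empty) _ => i.elim) (fun i _ => i.elim)
        (fun i => i.elim) 0 = univ := by
      ext x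
      simp [body]
    have hw : ∀ (i : Empty) (m : Fin k), (0 : ℝ) ≤ (fun (i : Empty) _ => i.elim) i m :=
      fun i => i.elim
    have hfaces : ∀ F : Set (EuclideanSpace ℝ (Fin k)), IsFace univ F → F.Nonempty → F = univ := by
      intro F hF hne
      rw [← hbody] at hF ⊢
      obtain ⟨x, hx, hFx⟩ := exists_eq_faceAt _ _ _ _ hw hF hne
      rw [hFx]
      ext y
      simp [faceAt, body]
    have hdim : dim (univ : Set (EuclideanSpace ℝ (Fin k))) = k := by
      rw [dim, AffineSubspace.span_univ, AffineSubspace.direction_top, finrank_top,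
        finrank_euclideanSpace_fin]
    refine ⟨k, univ, ?_, convex_univ, ?_, ?_, ?_⟩
    · rw [← hbody]
      exact isSpectrahedron_body _ _ _ _ hw
    · rw [hIk]
      ext d
      constructor
      · rintro ⟨F, hF, hne, rfl⟩
        rw [hfaces F hF hne, hdim]
        rfl
      · intro hd
        rw [mem_singleton_iff] at hd
        refine ⟨univ, ⟨subset_rfl, convex_univ, fun x _ y _ _ => ⟨mem_univ _, mem_univ _⟩⟩,
          univ_nonempty, ?_⟩
        rw [hdim, hd]
    · intro F hF hne hproper
      exact absurd (hfaces F hF hne) hproper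
    · have hpolar : polar (univ : Set (EuclideanSpace ℝ (Fin k))) = {0} := by
        ext y
        constructor
        · intro hy
          rw [mem_singleton_iff]
          by_contra hy0
          have h1 := hy ((2 / ‖y‖ ^ 2) • y) (mem_univ _)
          rw [real_inner_smul_left, real_inner_self_eq_norm_sq] at h1
          have h2 : 0 < ‖y‖ := norm_pos_iff.2 hy0
          rw [div_mul_cancel₀ _ (by positivity)] at h1
          norm_num at h1
        · rintro rfl x _
          rw [inner_zero_right]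
          exact zero_le_one
      rw [hpolar]
      intro F hF hne hproper
      exact absurd (hne.subset_singleton_iff.1 hF.1) hproper
  · -- the general case
    set J := {j : Fin N // k < (j : ℕ) ∧ (j : ℕ) ∈ I} with hJ
    set f : J → ℕ := fun j => (j.1 : ℕ) with hf
    have hf1 : ∀ j, k < f j := fun j => j.2.1
    have hf2 : ∀ j, f j < N := fun j => j.1.2
    have hN0 : (0 : ℝ) < N := by
      have : 0 < N := by omega
      exact_mod_cast this
    set s : J → ℝ := fun j => 3 / 5 * ((f j : ℝ) / N) with hs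
    have hs0 : ∀ j, 0 ≤ s j := by
      intro j
      simp only [hs]
      positivity
    have hs1 : ∀ j, s j ≤ 3 / 5 := by
      intro j
      have h1 : (f j : ℝ) / N ≤ 1 := by
        rw [div_le_one hN0]
        exact_mod_cast (hf2 j).le
      simp only [hs]
      linarith
    have hsinj : Function.Injective s := by
      intro i j hij
      simp only [hs] at hij
      have h1 : (f i : ℝ) = f j := by
        field_simp at hij
        linarith
      have h2 : f i = f j := by exact_mod_cast h1
      exact Subtype.ext (Fin.ext h2)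
    set c : J → ℝ := fun j => √(1 - s j ^ 2) with hc
    have hcs : ∀ j, c j ^ 2 + s j ^ 2 = 1 := by
      intro j
      have := hs0 j
      have := hs1 j
      simp only [hc]
      rw [Real.sq_sqrt (by nlinarith)]
      ring
    have hc' : ∀ j, 4 / 5 ≤ c j := by
      intro j
      have := hs0 j
      have := hs1 j
      simp only [hc]
      apply Real.le_sqrt_of_sq_le
      nlinarith
    obtain ⟨η, hη, hη1, hpair⟩ := exists_eta c s hcs hsinj
    have hw := wt_nonneg (N := N) (k := k) f η hη1
    refine ⟨N, body (wt f η N k) (ln c s N k) (rhs (J := J) η) (tr N k),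
      isSpectrahedron_body _ _ _ _ hw, body_convex _ _ _ _ hw, ?_,
      faciallyExposed_body _ _ _ _ hw, ?_⟩
    · rw [signature_body f c s η hkN hf1 hf2 hc' hs0 hcs hη hη1 hpair]
      ext d
      constructor
      · rintro (rfl | rfl | ⟨j, rfl⟩)
        · exact hNI
        · exact hkI
        · exact j.2.2
      · intro hd
        have h1 := hkmin d hd
        have h2 := hNmax' d hd
        by_cases h3 : d = N
        · exact Or.inl h3
        · by_cases h4 : d = k
          · exact Or.inr (Or.inl h4)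
          · exact Or.inr (Or.inr ⟨⟨⟨d, by omega⟩, by simp only; omega, hd⟩, rfl⟩)
    · rw [polar_body f c s η hkN hf1 hf2 hc' hs0 hs1 hcs hη hη1]
      exact cap_faciallyExposed N k hkN

end Pool.Agent.Results.MP_f0e28a_gt.AllSignatures
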